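import Pool.Agent.N223.AO_FOURA_A

set_option autoImplicit false

namespace Pool.Agent.N223.AO

open Finset Pool.Agent.N699.AO

lemma SA_card (k M : ℕ) : ((SA k M).card : ℝ) ≤ (M : ℝ) / 2 ^ k + 1 := by
  have h2 : 0 < 2 ^ k := by positivity
  have hsub : SA k M ⊆ Ioc (20 * M / 2 ^ k) (21 * M / 2 ^ k) := by
    intro a ha
    unfold SA at ha
    rw [mem_filter] at ha
    rw [mem_Ioc]
    refine ⟨?_, ?_⟩
    · rw [Nat.div_lt_iff_lt_mul h2]
      calc 20 * M < 2 ^ k * a := ha.2.1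
        _ = a * 2 ^ k := mul_comm _ _
    · rw [Nat.le_div_iff_mul_le h2]
      calc a * 2 ^ k = 2 ^ k * a := mul_comm _ _
        _ ≤ 21 * M := ha.2.2
  have h3 := card_le_card hsub
  rw [Nat.card_Ioc] at h3
  have h4 : ((21 * M / 2 ^ k : ℕ) : ℝ) ≤ 21 * (M : ℝ) / 2 ^ k := by
    refine (Nat.cast_div_le).trans ?_
    push_cast
    exact le_rfl
  have h5 : 20 * (M : ℝ) / 2 ^ k < ((20 * M / 2 ^ k : ℕ) : ℝ) + 1 := by
    have h6 : 20 * M < (20 * M / 2 ^ k + 1) * 2 ^ k := Nat.lt_mul_of_div_lt (Nat.lt_succ_self _) h2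
    rw [div_lt_iff₀ (by positivity)]
    exact_mod_cast h6
  have h7 : ((21 * M / 2 ^ k - 20 * M / 2 ^ k : ℕ) : ℝ) = ((21 * M / 2 ^ k : ℕ) : ℝ) - ((20 * M / 2 ^ k : ℕ) : ℝ) := by
    rw [Nat.cast_sub]
    exact Nat.div_le_div_right (by omega)
  have h8 : ((SA k M).card : ℝ) ≤ ((21 * M / 2 ^ k - 20 * M / 2 ^ k : ℕ) : ℝ) := by exact_mod_cast h3
  rw [h7] at h8
  have e : 21 * (M : ℝ) / 2 ^ k = 20 * (M : ℝ) / 2 ^ k + (M : ℝ) / 2 ^ k := by ring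
  linarith

lemma NQ_le (k M Q : ℕ) : (NQ k M Q : ℝ) ≤ ((SA k M).card : ℝ) ^ 2 := by
  unfold NQ
  have h := card_filter_le (SA k M ×ˢ SA k M) (fun p => (Q : ℤ) ∣ gz k p.1 - gz k p.2)
  rw [card_product] at h
  rw [sq]
  exact_mod_cast h

/-- the sum over the fractions -/
lemma frac_sum (hFAV : FAV) (k M Q : ℕ) (hQ : 1 ≤ Q) (β : ℝ) :
    ∑ c ∈ range (Q + 1), ‖EF k M ((c : ℝ) / Q + β)‖ ^ 2 ≤ 2 * ((Q : ℝ) * NQ k M Q) := by
  have h := hFAV k M Q hQ β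
  have hQ0 : (Q : ℝ) ≠ 0 := by positivity
  rw [sum_range_succ]
  have h1 : ‖EF k M ((Q : ℝ) / Q + β)‖ ^ 2 ≤ ∑ c ∈ range Q, ‖EF k M ((c : ℝ) / Q + β)‖ ^ 2 := by
    rw [div_self hQ0, EF_per]
    have h2 := single_le_sum (f := fun c : ℕ => ‖EF k M ((c : ℝ) / Q + β)‖ ^ 2) (s := range Q)
      (fun c _ => by positivity) (mem_range.2 (show 0 < Q by omega))
    simpa using h2
  linarith

/-- the integral over the arcs of one denominator -/
lemma arc_int (hFAV : FAV) (hINT : INTG) (C1 : ℝ) (k M L Q0 : ℕ) (hL : 1 ≤ L) (h : ℤ) (Q : ℕ) (hQ : 1 ≤ Q)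
    (δ : ℝ) (hδ : 0 ≤ δ) :
    ∑ c ∈ range (Q + 1), (∫ β in (-δ)..δ, Psi C1 k M L Q0 h Q c β) ≤
      256 * C1 ^ 2 * (L : ℝ) ^ 2 * (wQ Q0 L h Q * ((NQ k M Q : ℝ) / Q)) := by
  have hL0 : (0 : ℝ) < L := by exact_mod_cast hL
  have hQ0 : (0 : ℝ) < Q := by exact_mod_cast hQ
  have hw0 := wQ_nonneg Q0 L h Q
  rw [← intervalIntegral.integral_finsetSum (fun c _ => (Psi_cont C1 k M L Q0 h Q c).intervalIntegrable _ _)]
  have h1 : ∀ β ∈ Set.Icc (-δ) δ, ∑ c ∈ range (Q + 1), Psi C1 k M L Q0 h Q c β ≤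
      (32 * C1 ^ 2 * wQ Q0 L h Q * ((L : ℝ) ^ 4 / (Q : ℝ) ^ 2) * ((Q : ℝ) * NQ k M Q)) *
        (1 + (L : ℝ) ^ 2 * |β|) ^ (-(5 / 4) : ℝ) := by
    intro β _
    unfold Psi
    rw [← mul_sum, ← mul_sum]
    have h2 := frac_sum hFAV k M Q hQ β
    have h3 : 0 ≤ (1 + (L : ℝ) ^ 2 * |β|) ^ (-(5 / 4) : ℝ) := by
      have : 0 ≤ (L : ℝ) ^ 2 * |β| := by positivity
      positivity
    have h4 := mul_le_mul_of_nonneg_left (mul_le_mul_of_nonneg_left h2 h3)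
      (show 0 ≤ 16 * C1 ^ 2 * wQ Q0 L h Q * ((L : ℝ) ^ 4 / (Q : ℝ) ^ 2) by positivity)
    refine h4.trans (le_of_eq ?_)
    ring
  have hc1 : Continuous fun β : ℝ => ∑ c ∈ range (Q + 1), Psi C1 k M L Q0 h Q c β :=
    continuous_finsetSum _ fun c _ => Psi_cont C1 k M L Q0 h Q c
  have hc2 : Continuous fun β : ℝ => (32 * C1 ^ 2 * wQ Q0 L h Q * ((L : ℝ) ^ 4 / (Q : ℝ) ^ 2) * ((Q : ℝ) * NQ k M Q)) *
        (1 + (L : ℝ) ^ 2 * |β|) ^ (-(5 / 4) : ℝ) := continuous_const.mul (pow_cont L)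
  have i1 : IntervalIntegrable (fun β : ℝ => ∑ c ∈ range (Q + 1), Psi C1 k M L Q0 h Q c β) MeasureTheory.volume (-δ) δ :=
    hc1.intervalIntegrable _ _
  have i2 : IntervalIntegrable (fun β : ℝ => (32 * C1 ^ 2 * wQ Q0 L h Q * ((L : ℝ) ^ 4 / (Q : ℝ) ^ 2) * ((Q : ℝ) * NQ k M Q)) *
        (1 + (L : ℝ) ^ 2 * |β|) ^ (-(5 / 4) : ℝ)) MeasureTheory.volume (-δ) δ := hc2.intervalIntegrable _ _
  have h5 := intervalIntegral.integral_mono_on (show -δ ≤ δ by linarith) i1 i2 h1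
  refine h5.trans ?_
  rw [intervalIntegral.integral_const_mul]
  have h6 := hINT ((L : ℝ) ^ 2) δ (by positivity) hδ
  have h7 := mul_le_mul_of_nonneg_left h6
    (show 0 ≤ 32 * C1 ^ 2 * wQ Q0 L h Q * ((L : ℝ) ^ 4 / (Q : ℝ) ^ 2) * ((Q : ℝ) * NQ k M Q) by positivity)
  refine h7.trans (le_of_eq ?_)
  field_simp
  ring

lemma log_bound (M : ℕ) (hM : 2 ≤ M) (L : ℕ) (hL : L = 40 * M) :
    1 + Real.log L ≤ 6 * (1 + Real.log M) ∧ 1 + Real.log ((8 * L : ℕ) : ℝ) ≤ 8 * (1 + Real.log M) := by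
  have hM0 : (0 : ℝ) < M := by exact_mod_cast (show 0 < M by omega)
  have hlM : 0 ≤ Real.log M := Real.log_nonneg (by exact_mod_cast (show 1 ≤ M by omega))
  have h2 : Real.log 2 < 0.7 := by
    have := Real.log_two_lt_d9
    linarith
  have h40 : Real.log 40 ≤ 4.2 := by
    have : Real.log 40 ≤ Real.log (2 ^ 6) := Real.log_le_log (by norm_num) (by norm_num)
    rw [Real.log_pow] at this
    push_cast at this
    linarith
  have h320 : Real.log 320 ≤ 6.3 := by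
    have : Real.log 320 ≤ Real.log (2 ^ 9) := Real.log_le_log (by norm_num) (by norm_num)
    rw [Real.log_pow] at this
    push_cast at this
    linarith
  constructor
  · rw [hL]
    push_cast
    rw [Real.log_mul (by norm_num) hM0.ne']
    linarith
  · rw [hL]
    have e : ((8 * (40 * M) : ℕ) : ℝ) = 320 * M := by push_cast; ring
    rw [e, Real.log_mul (by norm_num) hM0.ne']
    linarith

theorem t_FOURA : FOURA := by
  intro hP hW hFAV hFL hS1 hS2 hD hCOV hINT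
  obtain ⟨C1, hC1, hW⟩ := hW
  obtain ⟨CS, hCS, hS2⟩ := hS2
  refine ⟨1000000 * C1 ^ 2 * (1 + 64 * CS), by positivity, ?_⟩
  intro k M Q0 hk hQ01 hM hQ0M h hh I K hK
  obtain ⟨L, hL⟩ : ∃ L, L = 40 * M := ⟨_, rfl⟩
  have hL1 : 1 ≤ L := by omega
  have hM0 : (0 : ℝ) < M := by exact_mod_cast (show 0 < M by omega)
  have hL0 : (0 : ℝ) < L := by exact_mod_cast hL1
  have hLM : (L : ℝ) = 40 * M := by rw [hL]; push_cast; ring
  have hlM : 0 ≤ Real.log M := Real.log_nonneg (by exact_mod_cast (show 1 ≤ M by omega))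
  have hlQ : 0 ≤ Real.log Q0 := Real.log_nonneg (by exact_mod_cast hQ01)
  have hK1 : 1 ≤ K := by
    have : 0 ≤ (M : ℝ) / 2 ^ k := by positivity
    linarith
  have hSA : ((SA k M).card : ℝ) ≤ K := (SA_card k M).trans hK
  have hSA0 : (0 : ℝ) ≤ (SA k M).card := Nat.cast_nonneg _
  refine (hP k M h I).trans ?_
  set Φ : ℝ → ℝ := fun α => ‖EF k M α * ES M α * ET M α‖ ^ 2 * ‖1 - ee ((h : ℝ) * α)‖ ^ 2 with hΦ
  have hΦc : Continuous Φ := by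
    refine Continuous.mul ?_ ?_
    · exact ((((EF_cont k M).mul (EW_cont 0 (20 * M) (30 * M))).mul (EW_cont 1 (5 * M) (40 * M))).norm).pow 2
    · exact ((continuous_const.sub (ee_cont.comp (by fun_prop))).norm).pow 2
  have hcov := hCOV (8 * L) Φ (Er C1 k M L) (Psi C1 k M L Q0 h) (fun Q => 1 / ((Q : ℝ) * (8 * L))) hΦc
    (Er_cont C1 k M L) (Psi_cont C1 k M L Q0 h) (Psi_nonneg C1 k M L Q0 h) (Er_nonneg C1 k M L)
    (fun Q => by positivity) (by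
      intro α ha0 ha1
      obtain ⟨Q, c, g1, g2, g3, g4, g5⟩ := hD (8 * L) (by omega) α ha0 ha1
      refine ⟨Q, mem_Icc.2 ⟨g1, g2⟩, c, mem_range.2 (by omega), ?_, ?_⟩
      · refine g5.trans (le_of_eq ?_)
        push_cast
        rfl
      · have g6 : |α - (c : ℝ) / Q| ≤ 1 / (Q * (8 * L)) := g5.trans (le_of_eq (by push_cast; rfl))
        have g7 := point C1 hC1 M hM hW k Q0 L hL h hh Q c g1 g2 g4 (α - (c : ℝ) / Q) g6
        have e : (c : ℝ) / Q + (α - (c : ℝ) / Q) = α := by ring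
        rw [e] at g7
        exact g7)
  refine hcov.trans ?_
  -- the arcs
  have hS : ∑ Q ∈ Icc 1 (8 * L), ∑ c ∈ range (Q + 1),
      (∫ β in (-(1 / ((Q : ℝ) * (8 * L))))..(1 / ((Q : ℝ) * (8 * L))), Psi C1 k M L Q0 h Q c β) ≤
      256 * C1 ^ 2 * (L : ℝ) ^ 2 * ∑ Q ∈ Icc 1 (8 * L), wQ Q0 L h Q * ((NQ k M Q : ℝ) / Q) := by
    rw [mul_sum]
    refine sum_le_sum fun Q hQ => ?_
    exact arc_int hFAV hINT C1 k M L Q0 hL1 h Q (mem_Icc.1 hQ).1 _ (by positivity)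
  set w : ℝ := (|(h : ℝ)| / (M : ℝ) ^ 2) ^ (1 / 4 : ℝ) with hw
  have hw0 : 0 ≤ w := by positivity
  have hwL : (|(h : ℝ)| / (L : ℝ) ^ 2) ^ (1 / 4 : ℝ) ≤ w := by
    refine Real.rpow_le_rpow (by positivity) ?_ (by norm_num)
    refine div_le_div_of_nonneg_left (abs_nonneg _) (by positivity) ?_
    rw [hLM]
    nlinarith [pow_pos hM0 2]
  have hQ0L : Q0 ≤ 8 * L := by omega
  have hsplit : ∑ Q ∈ Icc 1 (8 * L), wQ Q0 L h Q * ((NQ k M Q : ℝ) / Q) ≤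
      w * (K ^ 2 * (1 + Real.log Q0)) + ∑ Q ∈ Ioc Q0 (8 * L), (NQ k M Q : ℝ) / Q := by
    have e : Icc 1 (8 * L) = Icc 1 Q0 ∪ Ioc Q0 (8 * L) := by
      ext Q
      simp only [mem_Icc, mem_union, mem_Ioc]
      omega
    have hdisj : Disjoint (Icc 1 Q0) (Ioc Q0 (8 * L)) := by
      rw [disjoint_left]
      intro Q h1 h2
      rw [mem_Icc] at h1
      rw [mem_Ioc] at h2
      omega
    rw [e, sum_union hdisj]
    refine add_le_add ?_ (le_of_eq (sum_congr rfl fun Q hQ => ?_))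
    · have h1 : ∀ Q ∈ Icc 1 Q0, wQ Q0 L h Q * ((NQ k M Q : ℝ) / Q) ≤ w * K ^ 2 * ((Q : ℝ))⁻¹ := by
        intro Q hQ
        rw [mem_Icc] at hQ
        have hQp : (0 : ℝ) < Q := by exact_mod_cast (show 0 < Q by omega)
        unfold wQ
        rw [if_pos hQ.2]
        have h2 : (NQ k M Q : ℝ) / Q ≤ K ^ 2 * ((Q : ℝ))⁻¹ := by
          rw [div_eq_mul_inv]
          refine mul_le_mul_of_nonneg_right ?_ (by positivity)
          exact (NQ_le k M Q).trans (pow_le_pow_left₀ hSA0 hSA 2)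
        have h3 := mul_le_mul hwL h2 (by positivity) hw0
        refine h3.trans (le_of_eq (by ring))
      refine (sum_le_sum h1).trans ?_
      rw [← mul_sum]
      have h2 : ∑ Q ∈ Icc 1 Q0, ((Q : ℝ))⁻¹ ≤ 1 + Real.log Q0 := by
        have h3 := harmonic_le_one_add_log Q0
        rw [harmonic_eq_sum_Icc] at h3
        push_cast at h3
        exact h3
      have h4 := mul_le_mul_of_nonneg_left h2 (show 0 ≤ w * K ^ 2 by positivity)
      refine h4.trans (le_of_eq (by ring))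
    · unfold wQ
      rw [mem_Ioc] at hQ
      rw [if_neg (by omega), one_mul]
  have htail : ∑ Q ∈ Ioc Q0 (8 * L), (NQ k M Q : ℝ) / Q ≤
      CS * (K ^ 2 / √(Q0 : ℝ) + K * (1 + Real.log ((8 * L : ℕ) : ℝ)) ^ 2) := by
    refine le_trans (sum_le_sum fun Q hQ => ?_) (hS2 Q0 (8 * L) hQ01 (by omega) K hK1)
    rw [mem_Ioc] at hQ
    exact div_le_div_of_nonneg_right (hS1 k M Q hk (by omega) K hK) (Nat.cast_nonneg _)
  obtain ⟨hl1, hl2⟩ := log_bound M hM L hL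
  have hlL : 0 ≤ Real.log L := Real.log_nonneg (by exact_mod_cast hL1)
  have hl8 : 0 ≤ Real.log ((8 * L : ℕ) : ℝ) := Real.log_nonneg (by exact_mod_cast (show 1 ≤ 8 * L by omega))
  have hsq1 : (1 + Real.log L) ^ 2 ≤ 36 * (1 + Real.log M) ^ 2 := by
    have := pow_le_pow_left₀ (by linarith) hl1 2
    nlinarith
  have hsq2 : (1 + Real.log ((8 * L : ℕ) : ℝ)) ^ 2 ≤ 64 * (1 + Real.log M) ^ 2 := by
    have := pow_le_pow_left₀ (by linarith) hl2 2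
    nlinarith
  have hEr : ∫ α in (0 : ℝ)..1, Er C1 k M L α ≤ 8 * C1 ^ 2 * ((L : ℝ) * (1 + Real.log L)) ^ 2 * K := by
    unfold Er
    rw [intervalIntegral.integral_const_mul]
    exact mul_le_mul_of_nonneg_left ((hFL k M).trans hSA) (by positivity)
  set T1 : ℝ := K ^ 2 * ((1 + Real.log Q0) * w) with hT1
  set T2 : ℝ := K ^ 2 * (1 / √(Q0 : ℝ)) with hT2
  set T3 : ℝ := K * (1 + Real.log M) ^ 2 with hT3
  have hT10 : 0 ≤ T1 := by positivity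
  have hT20 : 0 ≤ T2 := by positivity
  have hT30 : 0 ≤ T3 := by positivity
  have hA : ∑ Q ∈ Icc 1 (8 * L), wQ Q0 L h Q * ((NQ k M Q : ℝ) / Q) ≤ T1 + CS * (T2 + 64 * T3) := by
    refine hsplit.trans ?_
    have h1 : K * (1 + Real.log ((8 * L : ℕ) : ℝ)) ^ 2 ≤ 64 * T3 := by
      have := mul_le_mul_of_nonneg_left hsq2 (show 0 ≤ K by linarith)
      rw [hT3]
      linarith
    have h2 : CS * (K ^ 2 / √(Q0 : ℝ) + K * (1 + Real.log ((8 * L : ℕ) : ℝ)) ^ 2) ≤ CS * (T2 + 64 * T3) := by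
      refine mul_le_mul_of_nonneg_left ?_ hCS.le
      rw [hT2, mul_one_div]
      linarith
    have h3 : w * (K ^ 2 * (1 + Real.log Q0)) = T1 := by rw [hT1]; ring
    linarith
  have hB : 8 * C1 ^ 2 * ((L : ℝ) * (1 + Real.log L)) ^ 2 * K ≤ 460800 * C1 ^ 2 * (M : ℝ) ^ 2 * T3 := by
    have h1 : 8 * C1 ^ 2 * ((L : ℝ) * (1 + Real.log L)) ^ 2 * K =
        (12800 * C1 ^ 2 * (M : ℝ) ^ 2 * K) * (1 + Real.log L) ^ 2 := by
      rw [hLM]
      ring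
    rw [h1]
    have h2 := mul_le_mul_of_nonneg_left hsq1 (show 0 ≤ 12800 * C1 ^ 2 * (M : ℝ) ^ 2 * K by positivity)
    refine h2.trans (le_of_eq ?_)
    rw [hT3]
    ring
  have hA2 : 256 * C1 ^ 2 * (L : ℝ) ^ 2 * ∑ Q ∈ Icc 1 (8 * L), wQ Q0 L h Q * ((NQ k M Q : ℝ) / Q) ≤
      409600 * C1 ^ 2 * (M : ℝ) ^ 2 * (T1 + CS * (T2 + 64 * T3)) := by
    have h1 := mul_le_mul_of_nonneg_left hA (show 0 ≤ 256 * C1 ^ 2 * (L : ℝ) ^ 2 by positivity)
    refine h1.trans (le_of_eq ?_)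
    rw [hLM]
    ring
  have hfin : 409600 * C1 ^ 2 * (M : ℝ) ^ 2 * (T1 + CS * (T2 + 64 * T3)) + 460800 * C1 ^ 2 * (M : ℝ) ^ 2 * T3 ≤
      1000000 * C1 ^ 2 * (1 + 64 * CS) * (M : ℝ) ^ 2 * (T1 + T2 + T3) := by
    have h1 : 409600 * (T1 + CS * (T2 + 64 * T3)) + 460800 * T3 ≤ 1000000 * (1 + 64 * CS) * (T1 + T2 + T3) := by
      have a1 : 0 ≤ CS * T1 := by positivity
      have a2 : 0 ≤ CS * T2 := by positivity
      have a3 : 0 ≤ CS * T3 := by positivity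
      nlinarith
    have h2 := mul_le_mul_of_nonneg_left h1 (show 0 ≤ C1 ^ 2 * (M : ℝ) ^ 2 by positivity)
    nlinarith
  have hgoal : K ^ 2 * ((1 + Real.log Q0) * w + 1 / √(Q0 : ℝ)) + K * (1 + Real.log M) ^ 2 = T1 + T2 + T3 := by
    rw [hT1, hT2, hT3]
    ring
  rw [hgoal]
  have hS' := hS.trans hA2
  have hEr' := hEr.trans hB
  linarith

end Pool.Agent.N223.AO
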