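import Pool.Agent.N699.AO.Stm

set_option autoImplicit false

namespace Pool.Agent.N223.AO

open Finset Pool.Agent.N699.AO

lemma ee_add (x y : ℝ) : ee (x + y) = ee x * ee y := by
  unfold ee
  rw [← Complex.exp_add]
  congr 1
  push_cast
  ring

lemma ee_int (n : ℤ) : ee (n : ℝ) = 1 := by
  unfold ee
  rw [← Complex.exp_int_mul_two_pi_mul_I n]
  congr 1
  push_cast
  ring

lemma ee_eq (x : ℝ) : ee x = Complex.exp (Complex.I * ((2 * Real.pi * x : ℝ) : ℂ)) := by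
  unfold ee
  congr 1
  push_cast
  ring

lemma norm_ee (x : ℝ) : ‖ee x‖ = 1 := by
  rw [ee_eq, mul_comm]
  exact Complex.norm_exp_ofReal_mul_I _

lemma ee_cont : Continuous ee := by
  unfold ee
  fun_prop

lemma EF_cont (k M : ℕ) : Continuous (EF k M) := by
  unfold EF
  refine continuous_finsetSum _ fun a _ => ?_
  exact ee_cont.comp (by fun_prop)

lemma EW_cont (ω A B : ℕ) : Continuous (EW ω A B) := by
  unfold EW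
  refine continuous_finsetSum _ fun a _ => ?_
  exact ee_cont.comp (by fun_prop)

lemma EF_per (k M : ℕ) (α : ℝ) : EF k M (1 + α) = EF k M α := by
  unfold EF
  refine sum_congr rfl fun a _ => ?_
  rw [mul_add, mul_one, ee_add, ee_int, one_mul]

lemma one_sub_le_two (x : ℝ) : ‖1 - ee x‖ ≤ 2 := by
  refine (norm_sub_le _ _).trans ?_
  rw [norm_ee, norm_one]
  norm_num

lemma one_sub_le_pi (x : ℝ) : ‖1 - ee x‖ ≤ 2 * (Real.pi * |x|) := by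
  rw [norm_sub_rev, ee_eq]
  refine (Real.norm_exp_I_mul_ofReal_sub_one_le).trans ?_
  rw [Real.norm_eq_abs, abs_mul, abs_mul, abs_of_pos Real.pi_pos]
  norm_num
  rw [mul_assoc]

lemma pi_quarter : Real.pi ^ (1 / 4 : ℝ) ≤ 2 := by
  have h1 : Real.pi ^ (1 / 4 : ℝ) ≤ Real.pi ^ (1 / 2 : ℝ) :=
    Real.rpow_le_rpow_of_exponent_le (by linarith [Real.pi_gt_three]) (by norm_num)
  rw [← Real.sqrt_eq_rpow] at h1
  have h2 : Real.sqrt Real.pi ≤ 2 := by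
    rw [Real.sqrt_le_iff]
    exact ⟨by norm_num, by linarith [Real.pi_le_four]⟩
  linarith

lemma one_sub_sq (x : ℝ) : ‖1 - ee x‖ ^ 2 ≤ 8 * |x| ^ (1 / 4 : ℝ) := by
  have h1 := one_sub_le_two x
  have h2 := one_sub_le_pi x
  have h0 := norm_nonneg (1 - ee x)
  have hx := abs_nonneg x
  have hp := Real.pi_pos
  set y := Real.pi * |x| with hy
  have hy0 : 0 ≤ y := by positivity
  have h3 : ‖1 - ee x‖ ^ 2 ≤ 4 * y ^ (1 / 4 : ℝ) := by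
    rcases le_total y 1 with h | h
    · have h4 : y ^ (2 : ℝ) ≤ y ^ (1 / 4 : ℝ) := Real.rpow_le_rpow_of_exponent_ge' hy0 h (by norm_num) (by norm_num)
      rw [Real.rpow_two] at h4
      nlinarith
    · have h4 : 1 ≤ y ^ (1 / 4 : ℝ) := Real.one_le_rpow h (by norm_num)
      nlinarith
  have h5 : y ^ (1 / 4 : ℝ) = Real.pi ^ (1 / 4 : ℝ) * |x| ^ (1 / 4 : ℝ) := Real.mul_rpow hp.le hx
  rw [h5] at h3
  have h6 : 0 ≤ |x| ^ (1 / 4 : ℝ) := by positivity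
  have h7 := mul_le_mul_of_nonneg_right pi_quarter h6
  linarith

/-- the weights -/
noncomputable def wQ (Q0 L : ℕ) (h : ℤ) (Q : ℕ) : ℝ :=
  if Q ≤ Q0 then (|(h : ℝ)| / (L : ℝ) ^ 2) ^ (1 / 4 : ℝ) else 1

lemma wQ_nonneg (Q0 L : ℕ) (h : ℤ) (Q : ℕ) : 0 ≤ wQ Q0 L h Q := by
  unfold wQ
  split_ifs
  · positivity
  · exact zero_le_one

lemma F_bound (Q0 L : ℕ) (hL : 1 ≤ L) (h : ℤ) (hh : ∀ Q ∈ Icc 1 Q0, (Q : ℤ) ∣ h) (Q c : ℕ) (hQ : 1 ≤ Q) (β : ℝ) :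
    ‖1 - ee ((h : ℝ) * ((c : ℝ) / Q + β))‖ ^ 2 ≤
      8 * (wQ Q0 L h Q * (1 + (L : ℝ) ^ 2 * |β|) ^ (1 / 4 : ℝ)) := by
  have hL0 : (0 : ℝ) < L := by exact_mod_cast hL
  have ht : (1 : ℝ) ≤ 1 + (L : ℝ) ^ 2 * |β| := by
    have : 0 ≤ (L : ℝ) ^ 2 * |β| := by positivity
    linarith
  unfold wQ
  split_ifs with hq
  · obtain ⟨m, hm⟩ := hh Q (mem_Icc.2 ⟨hQ, hq⟩)
    have hQ0 : (Q : ℝ) ≠ 0 := by positivity
    have e : (h : ℝ) * ((c : ℝ) / Q + β) = ((m * c : ℤ) : ℝ) + h * β := by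
      rw [hm]
      push_cast
      field_simp
    rw [e, ee_add, ee_int, one_mul]
    refine (one_sub_sq _).trans ?_
    refine mul_le_mul_of_nonneg_left ?_ (by norm_num)
    rw [← Real.mul_rpow (by positivity) (by linarith)]
    refine Real.rpow_le_rpow (abs_nonneg _) ?_ (by norm_num)
    rw [abs_mul]
    have e2 : |(h : ℝ)| * |β| = |(h : ℝ)| / (L : ℝ) ^ 2 * ((L : ℝ) ^ 2 * |β|) := by field_simp
    rw [e2]
    exact mul_le_mul_of_nonneg_left (by linarith) (by positivity)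
  · have h1 := one_sub_le_two ((h : ℝ) * ((c : ℝ) / Q + β))
    have h0 := norm_nonneg (1 - ee ((h : ℝ) * ((c : ℝ) / Q + β)))
    have h2 : 1 ≤ (1 + (L : ℝ) ^ 2 * |β|) ^ (1 / 4 : ℝ) := Real.one_le_rpow ht (by norm_num)
    nlinarith

/-- the main function -/
noncomputable def Psi (C1 : ℝ) (k M L Q0 : ℕ) (h : ℤ) (Q c : ℕ) (β : ℝ) : ℝ :=
  16 * C1 ^ 2 * wQ Q0 L h Q * ((L : ℝ) ^ 4 / (Q : ℝ) ^ 2) * ((1 + (L : ℝ) ^ 2 * |β|) ^ (-(5 / 4) : ℝ) *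
    ‖EF k M ((c : ℝ) / Q + β)‖ ^ 2)

/-- the error -/
noncomputable def Er (C1 : ℝ) (k M L : ℕ) (α : ℝ) : ℝ :=
  8 * C1 ^ 2 * ((L : ℝ) * (1 + Real.log L)) ^ 2 * ‖EF k M α‖ ^ 2

lemma Psi_nonneg (C1 : ℝ) (k M L Q0 : ℕ) (h : ℤ) (Q c : ℕ) (β : ℝ) : 0 ≤ Psi C1 k M L Q0 h Q c β := by
  unfold Psi
  have := wQ_nonneg Q0 L h Q
  have h2 : 0 ≤ (L : ℝ) ^ 2 * |β| := by positivity
  positivity

lemma pow_cont (L : ℕ) : Continuous (fun β : ℝ => (1 + (L : ℝ) ^ 2 * |β|) ^ (-(5 / 4) : ℝ)) := by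
  refine Continuous.rpow_const (by fun_prop) fun β => Or.inl ?_
  have h2 : 0 ≤ (L : ℝ) ^ 2 * |β| := by positivity
  positivity

lemma Psi_cont (C1 : ℝ) (k M L Q0 : ℕ) (h : ℤ) (Q c : ℕ) : Continuous (Psi C1 k M L Q0 h Q c) := by
  unfold Psi
  refine continuous_const.mul ((pow_cont L).mul ?_)
  exact (((EF_cont k M).comp (by fun_prop)).norm).pow 2

lemma Er_cont (C1 : ℝ) (k M L : ℕ) : Continuous (Er C1 k M L) := by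
  unfold Er
  exact continuous_const.mul (((EF_cont k M).norm).pow 2)

lemma Er_nonneg (C1 : ℝ) (k M L : ℕ) (α : ℝ) : 0 ≤ Er C1 k M L α := by
  unfold Er
  positivity

/-- the pointwise bound -/
lemma point (C1 : ℝ) (hC1 : 0 < C1) (M : ℕ) (hM : 2 ≤ M)
    (hW : ∀ L A B Q ω : ℕ, 1 ≤ L → B ≤ L → 1 ≤ Q → Q ≤ 8 * L →
      ∀ c : ℤ, IsCoprime c (Q : ℤ) → ∀ β : ℝ, |β| ≤ 1 / (Q * (8 * L)) →
      ‖EW ω A B (c / Q + β)‖ ^ 2 ≤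
        C1 * ((L : ℝ) ^ 2 / Q * (1 + (L : ℝ) ^ 2 * |β|) ^ (-(3 / 4) : ℝ) + L * (1 + Real.log L)))
    (k Q0 L : ℕ) (hL : L = 40 * M) (h : ℤ) (hh : ∀ Q ∈ Icc 1 Q0, (Q : ℤ) ∣ h) (Q c : ℕ) (hQ : 1 ≤ Q)
    (hQL : Q ≤ 8 * L) (hc : Nat.Coprime c Q) (β : ℝ) (hβ : |β| ≤ 1 / (Q * (8 * L))) :
    ‖EF k M ((c : ℝ) / Q + β) * ES M ((c : ℝ) / Q + β) * ET M ((c : ℝ) / Q + β)‖ ^ 2 *
      ‖1 - ee ((h : ℝ) * ((c : ℝ) / Q + β))‖ ^ 2 ≤ Psi C1 k M L Q0 h Q c β + Er C1 k M L ((c : ℝ) / Q + β) := by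
  have hL1 : 1 ≤ L := by omega
  have hL0 : (1 : ℝ) ≤ L := by exact_mod_cast hL1
  have hlog : 0 ≤ Real.log L := Real.log_nonneg hL0
  have hQ0 : (0 : ℝ) < Q := by exact_mod_cast hQ
  have hcop : IsCoprime (c : ℤ) (Q : ℤ) := Nat.isCoprime_iff_coprime.2 hc
  have h1 := hW L (20 * M) (30 * M) Q 0 hL1 (by omega) hQ hQL c hcop β hβ
  have h2 := hW L (5 * M) (40 * M) Q 1 hL1 (by omega) hQ hQL c hcop β hβ
  have h3 := F_bound Q0 L hL1 h hh Q c hQ β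
  have h3' : ‖1 - ee ((h : ℝ) * ((c : ℝ) / Q + β))‖ ^ 2 ≤ 4 := by
    have := one_sub_le_two ((h : ℝ) * ((c : ℝ) / Q + β))
    have h0 := norm_nonneg (1 - ee ((h : ℝ) * ((c : ℝ) / Q + β)))
    nlinarith
  simp only [Int.cast_natCast] at h1 h2
  change ‖ES M ((c : ℝ) / Q + β)‖ ^ 2 ≤ _ at h1
  change ‖ET M ((c : ℝ) / Q + β)‖ ^ 2 ≤ _ at h2
  set t : ℝ := 1 + (L : ℝ) ^ 2 * |β| with ht
  have ht1 : (1 : ℝ) ≤ t := by
    have : 0 ≤ (L : ℝ) ^ 2 * |β| := by positivity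
    linarith
  have ht0 : 0 < t := by linarith
  set X : ℝ := (L : ℝ) ^ 2 / Q * t ^ (-(3 / 4) : ℝ) with hX
  set Y : ℝ := (L : ℝ) * (1 + Real.log L) with hY
  have hX0 : 0 ≤ X := by positivity
  have hY0 : 0 ≤ Y := by positivity
  have hXX : X ^ 2 * t ^ (1 / 4 : ℝ) = (L : ℝ) ^ 4 / (Q : ℝ) ^ 2 * t ^ (-(5 / 4) : ℝ) := by
    have e1 : (t ^ (-(3 / 4) : ℝ)) ^ 2 * t ^ (1 / 4 : ℝ) = t ^ (-(5 / 4) : ℝ) := by
      rw [← Real.rpow_natCast, ← Real.rpow_mul ht0.le, ← Real.rpow_add ht0]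
      norm_num
    rw [hX, ← e1]
    ring
  set G := ‖1 - ee ((h : ℝ) * ((c : ℝ) / Q + β))‖ ^ 2 with hG
  have hG0 : 0 ≤ G := by positivity
  set N1 := ‖ES M ((c : ℝ) / Q + β)‖ ^ 2 with hN1
  set N2 := ‖ET M ((c : ℝ) / Q + β)‖ ^ 2 with hN2
  set N0 := ‖EF k M ((c : ℝ) / Q + β)‖ ^ 2 with hN0
  have hN10 : 0 ≤ N1 := by positivity
  have hN20 : 0 ≤ N2 := by positivity
  have hN00 : 0 ≤ N0 := by positivity
  have e0 : ‖EF k M ((c : ℝ) / Q + β) * ES M ((c : ℝ) / Q + β) * ET M ((c : ℝ) / Q + β)‖ ^ 2 = N0 * (N1 * N2) := by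
    rw [norm_mul, norm_mul, hN0, hN1, hN2]
    ring
  rw [e0]
  have h4 : N1 * N2 ≤ (C1 * (X + Y)) * (C1 * (X + Y)) := mul_le_mul h1 h2 hN20 (hN10.trans h1)
  have h5 : (C1 * (X + Y)) * (C1 * (X + Y)) ≤ 2 * C1 ^ 2 * (X ^ 2 + Y ^ 2) := by
    have : 0 ≤ C1 ^ 2 * (X - Y) ^ 2 := by positivity
    nlinarith
  have h6 : N1 * N2 * G ≤ 2 * C1 ^ 2 * (X ^ 2 + Y ^ 2) * G := mul_le_mul_of_nonneg_right (h4.trans h5) hG0
  set w := wQ Q0 L h Q with hw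
  have hw0 : 0 ≤ w := wQ_nonneg Q0 L h Q
  have h7 : 2 * C1 ^ 2 * (X ^ 2 + Y ^ 2) * G ≤
      16 * C1 ^ 2 * w * ((L : ℝ) ^ 4 / (Q : ℝ) ^ 2) * t ^ (-(5 / 4) : ℝ) + 8 * C1 ^ 2 * Y ^ 2 := by
    have a1 : 2 * C1 ^ 2 * X ^ 2 * G ≤ 2 * C1 ^ 2 * X ^ 2 * (8 * (w * t ^ (1 / 4 : ℝ))) :=
      mul_le_mul_of_nonneg_left h3 (by positivity)
    have a2 : 2 * C1 ^ 2 * Y ^ 2 * G ≤ 2 * C1 ^ 2 * Y ^ 2 * 4 := mul_le_mul_of_nonneg_left h3' (by positivity)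
    have a3 : 2 * C1 ^ 2 * X ^ 2 * (8 * (w * t ^ (1 / 4 : ℝ))) = 16 * C1 ^ 2 * w * (X ^ 2 * t ^ (1 / 4 : ℝ)) := by ring
    rw [a3, hXX] at a1
    nlinarith
  have h8 : N0 * (N1 * N2 * G) ≤ N0 * (16 * C1 ^ 2 * w * ((L : ℝ) ^ 4 / (Q : ℝ) ^ 2) * t ^ (-(5 / 4) : ℝ) + 8 * C1 ^ 2 * Y ^ 2) :=
    mul_le_mul_of_nonneg_left (h6.trans h7) hN00
  unfold Psi Er
  rw [← ht, ← hY, ← hN0, ← hw]
  linarith

end Pool.Agent.N223.AO
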